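import Mathlib

/-! Definitions: `k`-trees, local and union page numbers of finite graphs. -/

namespace Pool.Agent.R39.KTree

/-- `KTreeOn k G s`: the subgraph of `G` induced on the finite vertex set `s` is a `k`-tree. -/
inductive KTreeOn {V : Type} [DecidableEq V] (k : ℕ) (G : SimpleGraph V) : Finset V → Prop
  | base (s : Finset V) (hs : G.IsNClique (k + 1) s) : KTreeOn k G s
  | step (s K : Finset V) (v : V) (hs : KTreeOn k G s) (hKs : K ⊆ s) (hK : G.IsNClique k K)
      (hv : v ∉ s) (hadj : ∀ u ∈ s, G.Adj v u ↔ u ∈ K) : KTreeOn k G (insert v s)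

/-- `G` is a `k`-tree. -/
def IsKTree {V : Type} [Fintype V] [DecidableEq V] (k : ℕ) (G : SimpleGraph V) : Prop :=
  KTreeOn k G Finset.univ

/-- The edges `uv` and `wx` cross (with `u` first) in the spine ordering given by `pos`. -/
def Cross {V : Type} (pos : V → ℕ) (u v w x : V) : Prop :=
  pos u < pos w ∧ pos w < pos v ∧ pos v < pos x

/-- `G` has a linear embedding (spine ordering `pos`, edge `e` on page `page e`) in which every
page is crossing-free and every vertex is incident to edges from at most `m` pages. -/
def HasLocalEmbedding {V : Type} (G : SimpleGraph V) (m : ℕ) : Prop :=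
  ∃ (pos : V → ℕ) (page : Sym2 V → ℕ), Function.Injective pos ∧
    (∀ u v w x, G.Adj u v → G.Adj w x → page s(u, v) = page s(w, x) → ¬ Cross pos u v w x) ∧
    ∀ v, ((fun u => page s(v, u)) '' G.neighborSet v).ncard ≤ m

/-- The graph formed by the edges of `G` on the page `P`. -/
def pageGraph {V : Type} (G : SimpleGraph V) (page : Sym2 V → ℕ) (P : ℕ) : SimpleGraph V where
  Adj a b := G.Adj a b ∧ page s(a, b) = P
  symm := ⟨fun _ _ h => ⟨h.1.symm, by rw [Sym2.eq_swap]; exact h.2⟩⟩
  loopless := ⟨fun _ h => G.loopless.irrefl _ h.1⟩

/-- `G` has a linear embedding with the `m` pages `0, …, m - 1` in which, for every page, each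
connected component of the graph formed by the edges of this page is crossing-free. -/
def HasUnionEmbedding {V : Type} (G : SimpleGraph V) (m : ℕ) : Prop :=
  ∃ (pos : V → ℕ) (page : Sym2 V → ℕ), Function.Injective pos ∧
    (∀ u v, G.Adj u v → page s(u, v) < m) ∧
    ∀ u v w x, G.Adj u v → G.Adj w x → page s(u, v) = page s(w, x) →
      (pageGraph G page (page s(u, v))).Reachable u w → ¬ Cross pos u v w x

/-- The local page number: the least `m` with an `m`-local embedding. -/
noncomputable def localPageNumber {V : Type} (G : SimpleGraph V) : ℕ :=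
  sInf {m | HasLocalEmbedding G m}

/-- The union page number: the least `m` with an `m`-union embedding. -/
noncomputable def unionPageNumber {V : Type} (G : SimpleGraph V) : ℕ :=
  sInf {m | HasUnionEmbedding G m}

end Pool.Agent.R39.KTree
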