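import Mathlib

/-! Core argument: a sufficiently rich graph has no `k`-local book embedding for `k ≥ 3`. -/

namespace Pool.Agent.R39.KTree

open Function

variable {V : Type*} {ι : Type*} {k : ℕ}

/-- Every `k`-tuple in play has `M` pairwise nonadjacent common neighbours of larger rank,
hereditarily to depth `n`. -/
def Rich (G : SimpleGraph V) (ρ : V → ℕ) (M : ℕ) : ℕ → (Fin k → V) → Prop
  | 0, _ => True
  | n + 1, q => ∃ c : Fin M → V, Injective c ∧ (∀ a l, G.Adj (c a) (q l)) ∧
      (∀ a b, ¬ G.Adj (c a) (c b)) ∧ (∀ a l, ρ (q l) < ρ (c a)) ∧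
      ∀ a i, Rich G ρ M n (update q i (c a))

/-- A book embedding with crossing-free pages in which each vertex meets at most `k` pages. -/
structure Emb (G : SimpleGraph V) (k : ℕ) (pos : V → ℕ) (page : Sym2 V → ι) : Prop where
  inj : Injective pos
  cross : ∀ u v w x, G.Adj u v → G.Adj w x → page s(u, v) = page s(w, x) →
    ¬ (pos u < pos w ∧ pos w < pos v ∧ pos v < pos x)
  loc : ∀ v, ((fun u => page s(v, u)) '' G.neighborSet v).ncard ≤ k

/-- A state: three common neighbours of the tuple `q` with equal page vectors `P`, such that no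
member of `q` lies between them. -/
structure St (G : SimpleGraph V) (ρ pos : V → ℕ) (page : Sym2 V → ι) (q : Fin k → V)
    (v1 v v3 : V) (P : Fin k → ι) : Prop where
  inj : Injective q
  h1 : pos v1 < pos v
  h3 : pos v < pos v3
  a1 : ∀ l, G.Adj v1 (q l)
  a2 : ∀ l, G.Adj v (q l)
  a3 : ∀ l, G.Adj v3 (q l)
  p1 : ∀ l, page s(v1, q l) = P l
  p2 : ∀ l, page s(v, q l) = P l
  p3 : ∀ l, page s(v3, q l) = P l
  out : ∀ l, pos (q l) < pos v1 ∨ pos v3 < pos (q l)
  na1 : ¬ G.Adj v v1
  na3 : ¬ G.Adj v v3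
  r1 : ∀ l, ρ (q l) < ρ v1
  r2 : ∀ l, ρ (q l) < ρ v
  r3 : ∀ l, ρ (q l) < ρ v3

/-- The pages live in the open interval `(v1, v3)` at the tuple `q`. -/
def Live (G : SimpleGraph V) (pos : V → ℕ) (page : Sym2 V → ι) (q : Fin k → V) (v1 v3 : V) :
    Set ι :=
  {X | ∃ x l, pos v1 < pos x ∧ pos x < pos v3 ∧ G.Adj x (q l) ∧ page s(x, q l) = X}

variable {G : SimpleGraph V} {ρ pos : V → ℕ} {page : Sym2 V → ι}

/-- `a b` is an edge on page `X`. -/
def E (G : SimpleGraph V) (page : Sym2 V → ι) (X : ι) (a b : V) : Prop :=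
  G.Adj a b ∧ page s(a, b) = X

theorem E.symm {X : ι} {a b : V} (h : E G page X a b) : E G page X b a :=
  ⟨h.1.symm, by rw [Sym2.eq_swap]; exact h.2⟩

theorem Emb.x (h : Emb G k pos page) {X : ι} {a b c d : V} (hab : E G page X a b)
    (hcd : E G page X c d) (h1 : pos a < pos c) (h2 : pos c < pos b) (h3 : pos b < pos d) :
    False :=
  h.cross a b c d hab.1 hcd.1 (hab.2.trans hcd.2.symm) ⟨h1, h2, h3⟩

namespace St

variable {q : Fin k → V} {v1 v v3 : V} {P : Fin k → ι}

/-- Fact (3): inside the interval, page `P l'` can be used only towards `q l'`. -/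
theorem fact3 (h : Emb G k pos page) (s : St G ρ pos page q v1 v v3 P) {x : V} {l l' : Fin k}
    (hx1 : pos v1 < pos x) (hx3 : pos x < pos v3) (hadj : G.Adj x (q l))
    (hp : page s(x, q l) = P l') : l = l' := by
  by_contra hne
  have hq : pos (q l) ≠ pos (q l') := fun he => hne (s.inj (h.inj he))
  have e : E G page (P l') x (q l) := ⟨hadj, hp⟩
  have e1 : E G page (P l') v1 (q l') := ⟨s.a1 l', s.p1 l'⟩
  have e3 : E G page (P l') v3 (q l') := ⟨s.a3 l', s.p3 l'⟩
  have o := s.out l
  have o' := s.out l'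
  rcases o' with o' | o' <;> rcases o with o | o
  · rcases Nat.lt_or_gt_of_ne hq with hlt | hlt
    · exact h.x e.symm e3.symm hlt (by omega) (by omega)
    · exact h.x e1.symm e.symm hlt (by omega) (by omega)
  · exact h.x e3.symm e (by omega) (by omega) (by omega)
  · exact h.x e.symm e1 (by omega) (by omega) (by omega)
  · rcases Nat.lt_or_gt_of_ne hq with hlt | hlt
    · exact h.x e e3 (by omega) (by omega) hlt
    · exact h.x e1 e (by omega) (by omega) hlt

theorem P_inj (h : Emb G k pos page) (s : St G ρ pos page q v1 v v3 P) : Injective P := by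
  intro l l' he
  exact fact3 h s s.h1 s.h3 (s.a2 l) ((s.p2 l).trans he)

/-- All pages at the middle vertex are among the `P l`. -/
theorem pages_mid [Finite V] (h : Emb G k pos page) (s : St G ρ pos page q v1 v v3 P) {x : V}
    (hx : G.Adj v x) : ∃ l, page s(v, x) = P l := by
  have hfin : ((fun u => page s(v, u)) '' G.neighborSet v).Finite := Set.toFinite _
  have hsub : Set.range P ⊆ ((fun u => page s(v, u)) '' G.neighborSet v) := by
    rintro _ ⟨l, rfl⟩
    exact ⟨q l, s.a2 l, s.p2 l⟩
  have hcard : (Set.range P).ncard = k := by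
    rw [Set.ncard_range_of_injective (s.P_inj h)]
    simp
  have heq := Set.eq_of_subset_of_ncard_le hsub (by rw [hcard]; exact h.loc v) hfin
  have hmem : page s(v, x) ∈ ((fun u => page s(v, u)) '' G.neighborSet v) := ⟨x, hx, rfl⟩
  rw [← heq] at hmem
  obtain ⟨l, hl⟩ := hmem
  exact ⟨l, hl.symm⟩

/-- Fact (2): new neighbours of the middle vertex stay inside the interval. -/
theorem fact2 [Finite V] (h : Emb G k pos page) (s : St G ρ pos page q v1 v v3 P) {x : V}
    (hx : G.Adj v x) (hq : ∀ l, x ≠ q l) : pos v1 < pos x ∧ pos x < pos v3 := by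
  obtain ⟨l, hl⟩ := s.pages_mid h hx
  have hq' : pos x ≠ pos (q l) := fun he => hq l (h.inj he)
  have h1 : pos x ≠ pos v1 := fun he => s.na1 (h.inj he ▸ hx)
  have h3 : pos x ≠ pos v3 := fun he => s.na3 (h.inj he ▸ hx)
  have e : E G page (P l) v x := ⟨hx, hl⟩
  have e1 : E G page (P l) v1 (q l) := ⟨s.a1 l, s.p1 l⟩
  have e3 : E G page (P l) v3 (q l) := ⟨s.a3 l, s.p3 l⟩
  have o := s.out l
  have hh1 := s.h1
  have hh3 := s.h3
  constructor
  · by_contra hcon
    rcases o with o | o
    · rcases Nat.lt_or_gt_of_ne hq' with hlt | hlt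
      · exact h.x e.symm e3.symm hlt (by omega) (by omega)
      · exact h.x e1.symm e.symm hlt (by omega) (by omega)
    · exact h.x e.symm e1 (by omega) (by omega) (by omega)
  · by_contra hcon
    rcases o with o | o
    · exact h.x e3.symm e (by omega) (by omega) (by omega)
    · rcases Nat.lt_or_gt_of_ne hq' with hlt | hlt
      · exact h.x e e3 (by omega) (by omega) hlt
      · exact h.x e1 e (by omega) (by omega) hlt

theorem P_mem_live (s : St G ρ pos page q v1 v v3 P) (l : Fin k) :
    P l ∈ Live G pos page q v1 v3 :=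
  ⟨v, l, s.h1, s.h3, s.a2 l, s.p2 l⟩

end St

section child

variable {q : Fin k → V} {v1 v v3 : V} {P : Fin k → ι} {i : Fin k} {w1 w w3 : V}
  {Q : Fin k → ι}

theorem child_mem [Finite V] (h : Emb G k pos page) (s : St G ρ pos page q v1 v v3 P)
    (t : St G ρ pos page (update q i v) w1 w w3 Q) :
    pos v1 < pos w1 ∧ pos w3 < pos v3 := by
  have e : update q i v i = v := by simp
  constructor
  · refine (s.fact2 h (x := w1) ?_ ?_).1
    · have := t.a1 i
      rw [e] at this
      exact this.symm
    · intro l hl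
      have h1 := t.r1 i
      rw [e, hl] at h1
      have h2 := s.r2 l
      omega
  · refine (s.fact2 h (x := w3) ?_ ?_).2
    · have := t.a3 i
      rw [e] at this
      exact this.symm
    · intro l hl
      have h1 := t.r3 i
      rw [e, hl] at h1
      have h2 := s.r2 l
      omega

theorem live_mono [Finite V] (h : Emb G k pos page) (s : St G ρ pos page q v1 v v3 P)
    (t : St G ρ pos page (update q i v) w1 w w3 Q) :
    Live G pos page (update q i v) w1 w3 ⊆ Live G pos page q v1 v3 := by
  rintro X ⟨x, l, hx1, hx3, hadj, rfl⟩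
  obtain ⟨hc1, hc3⟩ := child_mem h s t
  by_cases hl : l = i
  · subst hl
    rw [update_self] at hadj ⊢
    obtain ⟨l', hl'⟩ := s.pages_mid h hadj.symm
    rw [Sym2.eq_swap, hl']
    exact s.P_mem_live l'
  · rw [update_of_ne hl] at hadj ⊢
    exact ⟨x, l, by omega, by omega, hadj, rfl⟩

end child

/-- The heart of the matter: a state all of whose children and (diagonal) grandchildren have the
same set of live pages is impossible once `k ≥ 3`. -/
theorem core [Finite V] (hk : 3 ≤ k) (h : Emb G k pos page) {q : Fin k → V} {v1 v v3 : V}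
    {P : Fin k → ι} (s : St G ρ pos page q v1 v v3 P)
    (w1 w w3 : Fin k → V) (Q : Fin k → Fin k → ι)
    (t : ∀ i, St G ρ pos page (update q i v) (w1 i) (w i) (w3 i) (Q i))
    (u1 u u3 : Fin k → V) (R : Fin k → Fin k → ι)
    (g : ∀ i, St G ρ pos page (update (update q i v) i (w i)) (u1 i) (u i) (u3 i) (R i))
    (hlive : ∀ i, Live G pos page q v1 v3 ⊆
      Live G pos page (update (update q i v) i (w i)) (u1 i) (u3 i)) : False := by
  have ht : ∀ i, pos v1 < pos (w1 i) ∧ pos (w3 i) < pos v3 := fun i => child_mem h s (t i)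
  have hg : ∀ i, pos (w1 i) < pos (u1 i) ∧ pos (u3 i) < pos (w3 i) :=
    fun i => child_mem h (t i) (g i)
  -- analysis of a live page P t in the grandchild i
  have key : ∀ i t', (∃ x, pos (w1 i) < pos x ∧ pos x < pos (w3 i) ∧ G.Adj x (q t') ∧
      page s(x, q t') = P t' ∧ t' ≠ i) ∨ (∃ l, P t' = Q i l) := by
    intro i t'
    obtain ⟨x, l, hx1, hx3, hadj, hp⟩ := hlive i (s.P_mem_live t')
    have h1 := ht i
    have h2 := hg i
    by_cases hl : l = i
    · subst hl
      rw [update_self] at hadj hp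
      obtain ⟨l', hl'⟩ := (t l).pages_mid h hadj.symm
      rw [Sym2.eq_swap, hl'] at hp
      exact Or.inr ⟨l', hp.symm⟩
    · rw [update_of_ne hl, update_of_ne hl] at hadj hp
      have := s.fact3 h (by omega) (by omega) hadj hp
      subst this
      exact Or.inl ⟨x, by omega, by omega, hadj, hp, hl⟩
  have key2 : ∀ i t' l, P t' = Q i l → l ≠ i → l = t' := by
    intro i t' l he hl
    have h1 := ht i
    have h3 := (t i).h1
    have h4 := (t i).h3
    have ha := (t i).a2 l
    have hp := (t i).p2 l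
    rw [update_of_ne hl] at ha hp
    exact s.fact3 h (by omega) (by omega) ha (hp.trans he.symm)
  -- (b)
  have hb : ∀ i, Q i i = P i := by
    intro i
    rcases key i i with ⟨x, _, _, _, _, hne⟩ | ⟨l, hl⟩
    · exact absurd rfl hne
    · by_cases hli : l = i
      · rw [hl, hli]
      · exact absurd (key2 i i l hl hli) hli
  -- (c)
  have hc : ∀ i t', t' ≠ i → ∃ x, pos (w1 i) < pos x ∧ pos x < pos (w3 i) ∧ G.Adj x (q t') ∧
      page s(x, q t') = P t' := by
    intro i t' hne
    rcases key i t' with ⟨x, h1, h2, h3, h4, _⟩ | ⟨l, hl⟩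
    · exact ⟨x, h1, h2, h3, h4⟩
    · have hli : l ≠ i := by
        intro hli
        rw [hli, hb i] at hl
        exact hne (s.P_inj h hl)
      have := key2 i t' l hl hli
      subst this
      have ha := (t i).a2 l
      have hp := (t i).p2 l
      rw [update_of_ne hli] at ha hp
      exact ⟨w i, (t i).h1, (t i).h3, ha, hp.trans hl.symm⟩
  -- (d)
  have hside : ∀ i, pos v < pos (w1 i) ∨ pos (w3 i) < pos v := by
    intro i
    have := (t i).out i
    rwa [update_self] at this
  have hedge1 : ∀ i, E G page (P i) (w1 i) v := by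
    intro i
    have ha := (t i).a1 i
    have hp := (t i).p1 i
    rw [update_self] at ha hp
    exact ⟨ha, hp.trans (hb i)⟩
  have hedge3 : ∀ i, E G page (P i) (w3 i) v := by
    intro i
    have ha := (t i).a3 i
    have hp := (t i).p3 i
    rw [update_self] at ha hp
    exact ⟨ha, hp.trans (hb i)⟩
  have hR : ∀ i t', t' ≠ i → pos v < pos (w1 i) → pos v < pos (w1 t') →
      pos (w3 t') < pos (w3 i) := by
    intro i t' hne h1 h2
    obtain ⟨x, hx1, hx3, hadj, hp⟩ := hc i t' hne
    by_contra hcon
    have e : E G page (P t') x (q t') := ⟨hadj, hp⟩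
    have b1 := ht t'
    have b2 := s.h1
    have b3 := s.h3
    rcases s.out t' with o | o
    · exact h.x e.symm (hedge3 t').symm (by omega) (by omega) (by omega)
    · exact h.x (hedge3 t').symm e (by omega) (by omega) (by omega)
  have hL : ∀ i t', t' ≠ i → pos (w3 i) < pos v → pos (w3 t') < pos v →
      pos (w1 i) < pos (w1 t') := by
    intro i t' hne h1 h2
    obtain ⟨x, hx1, hx3, hadj, hp⟩ := hc i t' hne
    by_contra hcon
    have e : E G page (P t') x (q t') := ⟨hadj, hp⟩
    have b1 := ht t'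
    have b2 := s.h1
    have b3 := s.h3
    rcases s.out t' with o | o
    · exact h.x e.symm (hedge1 t') (by omega) (by omega) (by omega)
    · exact h.x (hedge1 t') e (by omega) (by omega) (by omega)
  -- pigeonhole on three indices
  have h01 : (⟨0, by omega⟩ : Fin k) ≠ ⟨1, by omega⟩ := by simp
  have h02 : (⟨0, by omega⟩ : Fin k) ≠ ⟨2, by omega⟩ := by simp
  have h12 : (⟨1, by omega⟩ : Fin k) ≠ ⟨2, by omega⟩ := by simp
  have pair : ∀ i j : Fin k, i ≠ j → pos v < pos (w1 i) → pos v < pos (w1 j) → False := by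
    intro i j hij hi hj
    have := hR i j hij.symm hi hj
    have := hR j i hij hj hi
    omega
  have pair' : ∀ i j : Fin k, i ≠ j → pos (w3 i) < pos v → pos (w3 j) < pos v → False := by
    intro i j hij hi hj
    have := hL i j hij.symm hi hj
    have := hL j i hij hj hi
    omega
  rcases hside ⟨0, by omega⟩ with h0 | h0 <;> rcases hside ⟨1, by omega⟩ with h1 | h1 <;>
    rcases hside ⟨2, by omega⟩ with h2 | h2
  · exact pair _ _ h01 h0 h1
  · exact pair _ _ h01 h0 h1
  · exact pair _ _ h02 h0 h2
  · exact pair' _ _ h12 h1 h2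
  · exact pair _ _ h12 h1 h2
  · exact pair' _ _ h02 h0 h2
  · exact pair' _ _ h01 h0 h1
  · exact pair' _ _ h01 h0 h1

end Pool.Agent.R39.KTree
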