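import Mathlib
import Pool.Agent.R39.KTree.Core

/-! Pigeonhole step and the descent: rich graphs have no `k`-local embedding. -/

namespace Pool.Agent.R39.KTree

open Function

variable {V : Type*} {ι : Type*} {k : ℕ}
variable {G : SimpleGraph V} {ρ pos : V → ℕ} {page : Sym2 V → ι}

theorem exists_triple {α : Type*} (S : Finset α) (f : α → ℕ) (hf : Injective f)
    (hS : 2 < S.card) : ∃ a ∈ S, ∃ b ∈ S, ∃ c ∈ S, f a < f b ∧ f b < f c := by
  obtain ⟨a, b, c, ha, hb, hc, hab, hac, hbc⟩ := Finset.two_lt_card_iff.1 hS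
  have h1 := hf.ne hab
  have h2 := hf.ne hac
  have h3 := hf.ne hbc
  rcases Nat.lt_or_gt_of_ne h1 with h1 | h1 <;> rcases Nat.lt_or_gt_of_ne h2 with h2 | h2 <;>
    rcases Nat.lt_or_gt_of_ne h3 with h3 | h3
  · exact ⟨a, ha, b, hb, c, hc, h1, h3⟩
  · exact ⟨a, ha, c, hc, b, hb, h2, h3⟩
  · omega
  · exact ⟨c, hc, a, ha, b, hb, h2, h1⟩
  · exact ⟨b, hb, a, ha, c, hc, h1, h2⟩
  · omega
  · exact ⟨b, hb, c, hc, a, ha, h3, h2⟩
  · exact ⟨c, hc, b, hb, a, ha, h3, h1⟩

/-- The width used in the construction. -/
def width (k : ℕ) : ℕ := 2 * (2 * k) ^ k + 1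

theorem exists_state [Finite V] (h : Emb G k pos page) {n : ℕ} {q : Fin k → V}
    (hq : Injective q) (hr : Rich G ρ (width k) (n + 1) q) :
    ∃ v1 v v3 P, St G ρ pos page q v1 v v3 P ∧
      ∀ i, Rich G ρ (width k) n (update q i v) := by
  classical
  obtain ⟨c, hc, hadj, hnadj, hrk, hrec⟩ := hr
  -- the finite sets of pages at the tuple
  let S : Fin k → Set ι := fun l => (fun u => page s(q l, u)) '' G.neighborSet (q l)
  have hSfin : ∀ l, (S l).Finite := fun l => Set.toFinite _
  let T : Fin k → Finset ι := fun l => (hSfin l).toFinset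
  have hT : ∀ l, (T l).card ≤ k := by
    intro l
    have := h.loc (q l)
    rwa [Set.ncard_eq_toFinset_card _ (hSfin l)] at this
  let sig : Fin (width k) → Fin k → Bool × ι := fun a l =>
    (decide (pos (q l) < pos (c a)), page s(c a, q l))
  let T' : Finset (Fin k → Bool × ι) :=
    Fintype.piFinset (fun l => (Finset.univ : Finset Bool) ×ˢ T l)
  have hT' : T'.card ≤ (2 * k) ^ k := by
    simp only [T', Fintype.card_piFinset, Finset.card_product, Finset.card_univ,
      Fintype.card_bool]
    calc ∏ l : Fin k, 2 * (T l).card ≤ ∏ l : Fin k, 2 * k :=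
          Finset.prod_le_prod (fun _ _ => Nat.zero_le _)
            (fun l _ => Nat.mul_le_mul_left 2 (hT l))
      _ = (2 * k) ^ k := by simp
  have hmaps : ∀ a ∈ (Finset.univ : Finset (Fin (width k))), sig a ∈ T' := by
    intro a _
    simp only [T', Fintype.mem_piFinset, Finset.mem_product, Finset.mem_univ, true_and]
    intro l
    rw [Set.Finite.mem_toFinset]
    exact ⟨c a, (hadj a l).symm, by simp only [sig]; rw [Sym2.eq_swap]⟩
  have hmul : T'.card * 2 < (Finset.univ : Finset (Fin (width k))).card := by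
    rw [Finset.card_univ, Fintype.card_fin, width]
    omega
  obtain ⟨y, -, hy⟩ := Finset.exists_lt_card_fiber_of_mul_lt_card_of_maps_to hmaps hmul
  obtain ⟨a, ha, b, hb, d, hd, hab, hbd⟩ := exists_triple _ (fun a => pos (c a))
    (h.inj.comp hc) hy
  simp only [Finset.mem_filter, Finset.mem_univ, true_and] at ha hb hd
  have hside : ∀ l, (pos (q l) < pos (c a) ↔ pos (q l) < pos (c d)) := by
    intro l
    have h1 := congrFun (ha.trans hd.symm) l
    simp only [sig, Prod.mk.injEq, decide_eq_decide] at h1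
    exact h1.1
  have hpab : ∀ l, page s(c a, q l) = page s(c b, q l) := by
    intro l
    have h1 := congrFun (ha.trans hb.symm) l
    simp only [sig, Prod.mk.injEq] at h1
    exact h1.2
  have hpdb : ∀ l, page s(c d, q l) = page s(c b, q l) := by
    intro l
    have h1 := congrFun (hd.trans hb.symm) l
    simp only [sig, Prod.mk.injEq] at h1
    exact h1.2
  refine ⟨c a, c b, c d, fun l => page s(c b, q l), ⟨hq, hab, hbd, hadj a, hadj b, hadj d,
    hpab, fun _ => rfl, hpdb, ?_, hnadj b a, hnadj b d, hrk a, hrk b, hrk d⟩, hrec b⟩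
  intro l
  have h1 := hside l
  have h2 : pos (q l) ≠ pos (c d) := fun he => (hadj d l).ne (h.inj he).symm
  omega

theorem exists_child [Finite V] (h : Emb G k pos page) {n : ℕ} {q : Fin k → V}
    {v1 v v3 : V} {P : Fin k → ι} (s : St G ρ pos page q v1 v v3 P)
    (hr : ∀ i, Rich G ρ (width k) (n + 1) (update q i v)) (i : Fin k) :
    ∃ w1 w w3 Q, St G ρ pos page (update q i v) w1 w w3 Q ∧
      ∀ j, Rich G ρ (width k) n (update (update q i v) j w) := by
  refine exists_state h ?_ (hr i)
  intro a b hab
  by_cases ha : a = i <;> by_cases hb : b = i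
  · rw [ha, hb]
  · subst ha
    rw [update_self, update_of_ne hb] at hab
    exact absurd hab (s.a2 b).ne
  · subst hb
    rw [update_self, update_of_ne ha] at hab
    exact absurd hab.symm (s.a2 a).ne
  · rw [update_of_ne ha, update_of_ne hb] at hab
    exact s.inj hab

theorem no_state [Finite V] (hk : 3 ≤ k) (h : Emb G k pos page) :
    ∀ N n : ℕ, 2 * N + 2 ≤ n → ∀ (q : Fin k → V) (v1 v v3 : V) (P : Fin k → ι),
      St G ρ pos page q v1 v v3 P → (∀ i, Rich G ρ (width k) n (update q i v)) →
      (Live G pos page q v1 v3).ncard ≤ N → False := by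
  have hfin : ∀ (q : Fin k → V) v1 v3, (Live G pos page q v1 v3).Finite := by
    intro q v1 v3
    apply (Set.finite_range (fun p : V × Fin k => page s(p.1, q p.2))).subset
    rintro X ⟨x, l, _, _, _, hX⟩
    exact ⟨(x, l), hX⟩
  intro N
  induction N with
  | zero =>
    intro n _ q v1 v v3 P s _ hN
    have h0 := s.P_mem_live ⟨0, by omega⟩
    have : 0 < (Live G pos page q v1 v3).ncard := (Set.ncard_pos (hfin _ _ _)).2 ⟨_, h0⟩
    omega
  | succ N ih =>
    intro n hn q v1 v v3 P s hr hN
    obtain ⟨m, rfl⟩ : ∃ m, n = m + 2 := ⟨n - 2, by omega⟩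
    choose w1 w w3 Q ht htr using exists_child h s hr
    choose u1 u u3 R hg hgr using fun i => exists_child h (ht i) (htr i) i
    -- children have the same live set
    have e1 : ∀ i, Live G pos page (update q i v) (w1 i) (w3 i) = Live G pos page q v1 v3 := by
      intro i
      by_contra hne
      have hss := (live_mono h s (ht i)).ssubset_of_ne hne
      have hlt := Set.ncard_lt_ncard hss (hfin _ _ _)
      exact ih (m + 1) (by omega) _ _ _ _ _ (ht i) (htr i) (by omega)
    have e2 : ∀ i, Live G pos page (update (update q i v) i (w i)) (u1 i) (u3 i) =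
        Live G pos page q v1 v3 := by
      intro i
      by_contra hne
      have hm := live_mono h (ht i) (hg i)
      rw [e1 i] at hm
      have hss := hm.ssubset_of_ne hne
      have hlt := Set.ncard_lt_ncard hss (hfin _ _ _)
      exact ih m (by omega) _ _ _ _ _ (hg i) (hgr i) (by omega)
    exact core hk h s w1 w w3 Q ht u1 u u3 R hg (fun i => (e2 i).symm.subset)

/-- The depth used in the construction. -/
def depth (k : ℕ) : ℕ := 2 * (k * k) + 3

/-- Rich graphs have no `k`-local book embedding. -/
theorem no_emb [Finite V] (hk : 3 ≤ k) {q : Fin k → V} (hq : Injective q)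
    (hr : Rich G ρ (width k) (depth k) q) : ¬ Emb G k pos page := by
  intro h
  obtain ⟨v1, v, v3, P, s, hs⟩ := exists_state h hq (n := 2 * (k * k) + 2) hr
  refine no_state hk h (k * k) (2 * (k * k) + 2) le_rfl q v1 v v3 P s hs ?_
  have hsub : Live G pos page q v1 v3 ⊆
      ⋃ l : Fin k, (fun u => page s(q l, u)) '' G.neighborSet (q l) := by
    rintro X ⟨x, l, _, _, hadj, hX⟩
    refine Set.mem_iUnion.2 ⟨l, x, hadj.symm, ?_⟩
    rw [← hX, Sym2.eq_swap]
  have hfin : (⋃ l : Fin k, (fun u => page s(q l, u)) '' G.neighborSet (q l)).Finite :=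
    Set.finite_iUnion fun l => Set.toFinite _
  refine (Set.ncard_le_ncard hsub hfin).trans ?_
  have h1 : ∀ F : Finset (Fin k), (⋃ l ∈ F, (fun u => page s(q l, u)) '' G.neighborSet (q l)).ncard
      ≤ F.card * k := by
    classical
    intro F
    induction F using Finset.induction_on with
    | empty => simp
    | insert a F ha ih =>
      rw [Finset.set_biUnion_insert, Finset.card_insert_of_notMem ha, add_mul, one_mul, add_comm]
      exact (Set.ncard_union_le _ _).trans (add_le_add (h.loc (q a)) ih)
  have h2 := h1 Finset.univ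
  simpa using h2

end Pool.Agent.R39.KTree
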