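import Mathlib
import Pool.Agent.R39.KTree.Defs
import Pool.Agent.R39.KTree.Main

/-! A rich `k`-tree. -/

namespace Pool.Agent.R39.KTree

open Function

/-- Names for the vertices: roots, and the `a`-th child of a tuple. -/
inductive W (k : ℕ) : Type
  | root : Fin (k + 1) → W k
  | child : (Fin k → W k) → ℕ → W k

namespace W

variable {k : ℕ}

/-- The level of a vertex. -/
def level : W k → ℕ
  | root _ => 0
  | child q _ => 1 + ∑ l, level (q l)

theorem level_lt (q : Fin k → W k) (a : ℕ) (l : Fin k) : level (q l) < level (child q a) := by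
  have h : level (q l) ≤ ∑ l, level (q l) :=
    Finset.single_le_sum (f := fun l => level (q l)) (fun _ _ => Nat.zero_le _) (Finset.mem_univ l)
  simp only [level]
  omega

/-- The ambient graph. -/
def graph (k : ℕ) : SimpleGraph (W k) where
  Adj x y := (∃ i j, i ≠ j ∧ x = root i ∧ y = root j) ∨ (∃ q a l, x = child q a ∧ y = q l) ∨
    (∃ q a l, y = child q a ∧ x = q l)
  symm := by
    constructor
    rintro x y (⟨i, j, hij, hx, hy⟩ | ⟨q, a, l, hx, hy⟩ | ⟨q, a, l, hx, hy⟩)
    · exact Or.inl ⟨j, i, hij.symm, hy, hx⟩
    · exact Or.inr (Or.inr ⟨q, a, l, hx, hy⟩)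
    · exact Or.inr (Or.inl ⟨q, a, l, hx, hy⟩)
  loopless := by
    constructor
    rintro x (⟨i, j, hij, hx, hy⟩ | ⟨q, a, l, hx, hy⟩ | ⟨q, a, l, hx, hy⟩)
    · rw [hx] at hy
      exact hij (root.inj hy)
    · have := level_lt q a l
      rw [← hx, ← hy] at this
      omega
    · have := level_lt q a l
      rw [← hx, ← hy] at this
      omega

theorem adj_child (q : Fin k → W k) (a : ℕ) (l : Fin k) : (graph k).Adj (child q a) (q l) :=
  Or.inr (Or.inl ⟨q, a, l, rfl, rfl⟩)

theorem adj_root {i j : Fin (k + 1)} (h : i ≠ j) : (graph k).Adj (root i) (root j) :=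
  Or.inl ⟨i, j, h, rfl, rfl⟩

theorem not_adj_child (q : Fin k → W k) (a b : ℕ) :
    ¬ (graph k).Adj (child q a) (child q b) := by
  rintro (⟨i, j, hij, hx, hy⟩ | ⟨q', a', l, hx, hy⟩ | ⟨q', a', l, hx, hy⟩)
  · cases hx
  · injection hx with h1 h2
    subst h1
    have := level_lt q b l
    rw [hy] at this
    omega
  · injection hx with h1 h2
    subst h1
    have := level_lt q a l
    rw [hy] at this
    omega

end W

open W

variable {k : ℕ}

/-- Sets of vertices closed under taking parents. -/
def Closed (s : Finset (W k)) : Prop := ∀ q a, child q a ∈ s → ∀ l, q l ∈ s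

open Classical in
theorem ext_ktree (s : Finset (W k)) (hs : KTreeOn k (graph k) s) (hc : Closed s)
    (T : Finset ((Fin k → W k) × ℕ))
    (hT : ∀ p ∈ T, (∀ l, p.1 l ∈ s) ∧ ∀ i j, i ≠ j → (graph k).Adj (p.1 i) (p.1 j)) :
    KTreeOn k (graph k) (s ∪ T.image (fun p => child p.1 p.2)) ∧
      Closed (s ∪ T.image (fun p => child p.1 p.2)) := by
  induction T using Finset.induction_on with
  | empty => simpa using ⟨hs, hc⟩
  | insert p T hp ih =>
    obtain ⟨ih1, ih2⟩ := ih (fun p hp => hT p (Finset.mem_insert_of_mem hp))
    rw [Finset.image_insert, Finset.union_insert]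
    set S := s ∪ T.image (fun p => child p.1 p.2) with hS
    obtain ⟨hp1, hp2⟩ := hT p (Finset.mem_insert_self _ _)
    by_cases hmem : child p.1 p.2 ∈ S
    · rw [Finset.insert_eq_of_mem hmem]
      exact ⟨ih1, ih2⟩
    · have hsub : ∀ l, p.1 l ∈ S := fun l => Finset.mem_union_left _ (hp1 l)
      have hinj : Injective p.1 := by
        intro i j hij
        by_contra hne
        exact (hp2 i j hne).ne hij
      constructor
      · refine KTreeOn.step S (Finset.univ.image p.1) _ ih1 ?_ ?_ hmem ?_
        · intro x hx
          obtain ⟨l, -, rfl⟩ := Finset.mem_image.1 hx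
          exact hsub l
        · rw [SimpleGraph.isNClique_iff]
          constructor
          · intro x hx y hy hxy
            simp only [Finset.coe_image, Finset.coe_univ, Set.image_univ, Set.mem_range] at hx hy
            obtain ⟨i, rfl⟩ := hx
            obtain ⟨j, rfl⟩ := hy
            exact hp2 i j (fun h => hxy (by rw [h]))
          · rw [Finset.card_image_of_injective _ hinj]
            simp
        · intro u hu
          constructor
          · rintro (⟨i, j, hij, hx, hy⟩ | ⟨q, a, l, hx, hy⟩ | ⟨q, a, l, hx, hy⟩)
            · cases hx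
            · injection hx with h1 h2
              rw [h1]
              exact Finset.mem_image.2 ⟨l, Finset.mem_univ _, hy.symm⟩
            · subst hx
              have := ih2 q a hu l
              rw [← hy] at this
              exact absurd this hmem
          · intro hu'
            obtain ⟨l, -, rfl⟩ := Finset.mem_image.1 hu'
            exact adj_child _ _ _
      · intro q a hq l
        rcases Finset.mem_insert.1 hq with hq | hq
        · injection hq with h1 h2
          rw [h1]
          exact Finset.mem_insert_of_mem (hsub l)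
        · exact Finset.mem_insert_of_mem (ih2 q a hq l)

open Classical in
/-- All adjacent tuples in `s`. -/
noncomputable def tuples (s : Finset (W k)) : Finset (Fin k → W k) :=
  (Fintype.piFinset (fun _ => s)).filter (fun q => ∀ i j, i ≠ j → (graph k).Adj (q i) (q j))

open Classical in
/-- One round of adding children. -/
noncomputable def next (s : Finset (W k)) : Finset (W k) :=
  s ∪ (tuples s ×ˢ Finset.range (width k)).image (fun p => child p.1 p.2)

open Classical in
/-- The vertex sets. -/
noncomputable def F (k : ℕ) : ℕ → Finset (W k)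
  | 0 => Finset.univ.image root
  | D + 1 => next (F k D)

theorem F_mono (D : ℕ) : F k D ⊆ F k (D + 1) := by
  classical
  exact Finset.subset_union_left

theorem F_mono' {D D' : ℕ} (h : D ≤ D') : F k D ⊆ F k D' := by
  induction h with
  | refl => exact Finset.Subset.refl _
  | step _ ih => exact ih.trans (F_mono _)

theorem mem_tuples {s : Finset (W k)} {q : Fin k → W k} :
    q ∈ tuples s ↔ (∀ l, q l ∈ s) ∧ ∀ i j, i ≠ j → (graph k).Adj (q i) (q j) := by
  simp [tuples]

theorem child_mem_F {D : ℕ} {q : Fin k → W k} (hq : ∀ l, q l ∈ F k D)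
    (hq' : ∀ i j, i ≠ j → (graph k).Adj (q i) (q j)) {a : ℕ} (ha : a < width k) :
    child q a ∈ F k (D + 1) := by
  classical
  refine Finset.mem_union_right _ (Finset.mem_image.2 ⟨(q, a), ?_, rfl⟩)
  exact Finset.mem_product.2 ⟨mem_tuples.2 ⟨hq, hq'⟩, Finset.mem_range.2 ha⟩

open Classical in
theorem F_ktree (D : ℕ) : KTreeOn k (graph k) (F k D) ∧ Closed (F k D) := by
  induction D with
  | zero =>
    constructor
    · refine KTreeOn.base _ ?_
      rw [SimpleGraph.isNClique_iff]
      constructor
      · intro x hx y hy hxy
        simp only [F, Finset.coe_image, Finset.coe_univ, Set.image_univ, Set.mem_range] at hx hy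
        obtain ⟨i, rfl⟩ := hx
        obtain ⟨j, rfl⟩ := hy
        exact adj_root (fun h => hxy (by rw [h]))
      · rw [F, Finset.card_image_of_injective _ (fun i j h => root.inj h)]
        simp
    · intro q a hq
      rw [F] at hq
      obtain ⟨i, -, hi⟩ := Finset.mem_image.1 hq
      cases hi
  | succ D ih =>
    rw [F, next]
    refine ext_ktree (F k D) ih.1 ih.2 _ ?_
    intro p hp
    exact mem_tuples.1 (Finset.mem_product.1 hp).1

/-- Transport of `KTreeOn` along an embedding. -/
theorem KTreeOn.comap {V V' : Type} [DecidableEq V] [DecidableEq V'] {G : SimpleGraph V}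
    (f : V' ↪ V) {s : Finset V} (hs : KTreeOn k G s) :
    ∀ s' : Finset V', s'.map f = s → KTreeOn k (G.comap f) s' := by
  have hclique : ∀ (m : ℕ) (s' : Finset V'), G.IsNClique m (s'.map f) →
      (G.comap f).IsNClique m s' := by
    intro m s' h
    rw [SimpleGraph.isNClique_iff] at h ⊢
    obtain ⟨h1, h2⟩ := h
    constructor
    · intro x hx y hy hxy
      exact h1 (by simpa using hx) (by simpa using hy) (fun h => hxy (f.injective h))
    · simpa using h2
  induction hs with
  | base s hs =>
    rintro s' rfl
    exact KTreeOn.base _ (hclique _ _ hs)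
  | step s K v hs hKs hK hv hadj ih =>
    intro s' hs'
    have hv' : v ∈ s'.map f := by rw [hs']; exact Finset.mem_insert_self _ _
    obtain ⟨v', hv's, rfl⟩ := Finset.mem_map.1 hv'
    have hs : (s'.erase v').map f = s := by
      rw [Finset.map_erase, hs', Finset.erase_insert hv]
    -- preimage of K
    have hK' : (s'.filter (fun x => f x ∈ K)).map f = K := by
      ext y
      simp only [Finset.mem_map, Finset.mem_filter]
      constructor
      · rintro ⟨x, ⟨_, hx⟩, rfl⟩
        exact hx
      · intro hy
        have : y ∈ s'.map f := by rw [hs']; exact Finset.mem_insert_of_mem (hKs hy)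
        obtain ⟨x, hx, rfl⟩ := Finset.mem_map.1 this
        exact ⟨x, ⟨hx, hy⟩, rfl⟩
    have := KTreeOn.step (s'.erase v') (s'.filter (fun x => f x ∈ K)) v' (ih _ hs) ?_
      (hclique _ _ (by rw [hK']; exact hK)) (Finset.notMem_erase _ _) ?_
    · rwa [Finset.insert_erase hv's] at this
    · intro x hx
      obtain ⟨hx1, hx2⟩ := Finset.mem_filter.1 hx
      refine Finset.mem_erase.2 ⟨?_, hx1⟩
      rintro rfl
      exact hv (hKs hx2)
    · intro u hu
      have hu' : f u ∈ s := by
        rw [← hs]
        exact Finset.mem_map_of_mem f hu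
      have := hadj (f u) hu'
      rw [Finset.mem_filter]
      constructor
      · intro h
        exact ⟨(Finset.mem_erase.1 hu).2, this.1 h⟩
      · intro h
        exact this.2 h.2

theorem rich_comap {D : ℕ} {n : ℕ} (f : Fin n ↪ W k) (hf : Finset.univ.map f = F k D) :
    ∀ m D', D' + m = D → ∀ q : Fin k → Fin n, (∀ l, f (q l) ∈ F k D') →
      (∀ i j, i ≠ j → (graph k).Adj (f (q i)) (f (q j))) →
      Rich ((graph k).comap f) (fun x => level (f x)) (width k) m q := by
  intro m
  induction m with
  | zero => intro D' _ q _ _; trivial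
  | succ m ih =>
    intro D' hD q hq hadj
    have hmem : ∀ a : Fin (width k), child (fun l => f (q l)) a ∈ F k (D' + 1) := fun a =>
      child_mem_F hq hadj a.2
    have hex : ∀ a : Fin (width k), ∃ x : Fin n, f x = child (fun l => f (q l)) a := by
      intro a
      have h1 : child (fun l => f (q l)) a ∈ F k D := F_mono' (by omega) (hmem a)
      rw [← hf] at h1
      obtain ⟨x, -, hx⟩ := Finset.mem_map.1 h1
      exact ⟨x, hx⟩
    choose c hc using hex
    refine ⟨c, ?_, ?_, ?_, ?_, ?_⟩
    · intro a b hab
      have h1 := hc a
      rw [hab, hc b] at h1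
      injection h1 with _ h2
      exact Fin.ext h2.symm
    · intro a l
      rw [SimpleGraph.comap_adj, hc a]
      exact adj_child (fun l => f (q l)) a l
    · intro a b
      rw [SimpleGraph.comap_adj, hc a, hc b]
      exact not_adj_child _ _ _
    · intro a l
      change level (f (q l)) < level (f (c a))
      rw [hc a]
      exact level_lt (fun l => f (q l)) a l
    · intro a i
      refine ih (D' + 1) (by omega) _ ?_ ?_
      · intro l
        by_cases hl : l = i
        · subst hl
          rw [update_self, hc a]
          exact hmem a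
        · rw [update_of_ne hl]
          exact F_mono _ (hq l)
      · intro x y hxy
        by_cases hx : x = i
        · subst hx
          rw [update_self, update_of_ne hxy.symm, hc a]
          exact adj_child (fun l => f (q l)) a y
        · by_cases hy : y = i
          · subst hy
            rw [update_self, update_of_ne hxy, hc a]
            exact (adj_child (fun l => f (q l)) a x).symm
          · rw [update_of_ne hx, update_of_ne hy]
            exact hadj x y hxy

/-- For `k ≥ 3` some `k`-tree has no book embedding (with pages labelled in any type) with at most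
`k` pages at each vertex. -/
theorem exists_bad_ktree (hk : 3 ≤ k) : ∃ n, ∃ G : SimpleGraph (Fin n), IsKTree k G ∧
    ∀ (ι : Type) (pos : Fin n → ℕ) (page : Sym2 (Fin n) → ι), ¬ Emb G k pos page := by
  classical
  set S := F k (depth k) with hS
  let f : Fin S.card ↪ W k := (S.equivFin.symm.toEmbedding).trans (Embedding.subtype _)
  have hf : Finset.univ.map f = F k (depth k) := by
    rw [← hS]
    ext x
    simp only [Finset.mem_map, Finset.mem_univ, true_and]
    constructor
    · rintro ⟨i, rfl⟩
      exact (S.equivFin.symm i).2
    · intro hx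
      exact ⟨S.equivFin ⟨x, hx⟩, by simp [f]⟩
  refine ⟨S.card, (graph k).comap f, ?_, ?_⟩
  · have := KTreeOn.comap f (F_ktree (k := k) (depth k)).1 Finset.univ hf
    unfold IsKTree
    convert this
  · intro ι pos page
    have hroot : ∀ l : Fin k, ∃ x : Fin S.card, f x = root l.castSucc := by
      intro l
      have h1 : root l.castSucc ∈ F k (depth k) :=
        F_mono' (Nat.zero_le _) (Finset.mem_image.2 ⟨_, Finset.mem_univ _, rfl⟩)
      rw [← hf] at h1
      obtain ⟨x, -, hx⟩ := Finset.mem_map.1 h1
      exact ⟨x, hx⟩
    choose q hq using hroot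
    have hqi : Injective q := by
      intro a b hab
      have h1 := hq a
      rw [hab, hq b] at h1
      injection h1 with h2
      exact (Fin.castSucc_injective _ h2).symm
    refine no_emb hk hqi (rich_comap f hf (depth k) 0 (by omega) q ?_ ?_)
    · intro l
      rw [hq l]
      exact Finset.mem_image.2 ⟨_, Finset.mem_univ _, rfl⟩
    · intro i j hij
      rw [hq i, hq j]
      exact adj_root (fun h => hij (Fin.castSucc_injective _ h))

end Pool.Agent.R39.KTree
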