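import Mathlib
import Pool.Agent.R39.KTree.Defs

/-! Every `k`-tree has a crossing-free book embedding with `k + 1` pages. -/

namespace Pool.Agent.R39.KTree

open Function

variable {V : Type} {k : ℕ}

theorem exists_book [DecidableEq V] {G : SimpleGraph V} (hk : 1 ≤ k) {s : Finset V}
    (hs : KTreeOn k G s) : ∃ (c : V → Fin (k + 1)) (pos : V → ℕ),
      (∀ x ∈ s, ∀ y ∈ s, G.Adj x y → c x ≠ c y) ∧
      (∀ x ∈ s, ∀ y ∈ s, pos x = pos y → x = y) ∧
      (∀ z ∈ s, ∀ x ∈ s, ∀ y ∈ s, G.Adj x z → G.Adj y z → pos x < pos z → pos y < pos z →
        x ≠ y → G.Adj x y) ∧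
      (∀ u ∈ s, ∀ v ∈ s, ∀ w ∈ s, ∀ x ∈ s, G.Adj u v → G.Adj w x → c u = c w →
        pos u < pos w → pos w < pos v → pos v < pos x → False) := by
  induction hs with
  | base s hs =>
    rw [SimpleGraph.isNClique_iff] at hs
    obtain ⟨hcl, hcard⟩ := hs
    classical
    let e : s ≃ Fin (k + 1) := s.equivFinOfCardEq hcard
    let c : V → Fin (k + 1) := fun x => if h : x ∈ s then e ⟨x, h⟩ else 0
    have hc : ∀ x ∈ s, ∀ y ∈ s, c x = c y → x = y := by
      intro x hx y hy h
      simp only [c, dif_pos hx, dif_pos hy] at h
      simpa using e.injective h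
    refine ⟨c, fun x => (c x : ℕ), ?_, ?_, ?_, ?_⟩
    · intro x hx y hy hxy h
      exact hxy.ne (hc x hx y hy h)
    · intro x hx y hy h
      exact hc x hx y hy (Fin.ext h)
    · intro z _ x hx y hy _ _ _ _ hxy
      exact hcl hx hy hxy
    · intro u hu v _ w hw x _ _ _ h h1 _ _
      rw [hc u hu w hw h] at h1
      exact lt_irrefl _ h1
  | step s K v hs hKs hK hv hadj ih =>
    obtain ⟨c, pos, h1, h2, h3, h4⟩ := ih
    rw [SimpleGraph.isNClique_iff] at hK
    obtain ⟨hcl, hcard⟩ := hK
    have hKne : K.Nonempty := by
      rw [← Finset.card_pos]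
      omega
    obtain ⟨z, hzK, hz⟩ := Finset.exists_max_image K pos hKne
    have hzs : z ∈ s := hKs hzK
    -- a free colour
    obtain ⟨d, hd⟩ : ∃ d : Fin (k + 1), d ∉ K.image c := by
      by_contra hcon
      push Not at hcon
      have hsub : (Finset.univ : Finset (Fin (k + 1))) ⊆ K.image c := fun d _ => hcon d
      have := (Finset.card_le_card hsub).trans Finset.card_image_le
      rw [Finset.card_univ, Fintype.card_fin] at this
      omega
    have hne : ∀ x ∈ s, x ≠ v := fun x hx h => hv (h ▸ hx)
    have hvv : ¬ G.Adj v v := G.loopless.irrefl v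
    let c' : V → Fin (k + 1) := update c v d
    let pos' : V → ℕ := fun x => if x = v then 2 * pos z + 1 else 2 * pos x
    have cs : ∀ x ∈ s, c' x = c x := fun x hx => update_of_ne (hne x hx) _ _
    have cv : c' v = d := update_self _ _ _
    have ps : ∀ x ∈ s, pos' x = 2 * pos x := fun x hx => if_neg (hne x hx)
    have pv : pos' v = 2 * pos z + 1 := if_pos rfl
    -- neighbours of `v` are to its left
    have left : ∀ x ∈ s, G.Adj v x → x ∈ K ∧ pos' x < pos' v := by
      intro x hx h
      have hxK := (hadj x hx).1 h
      have := hz x hxK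
      refine ⟨hxK, ?_⟩
      rw [ps x hx, pv]
      omega
    refine ⟨c', pos', ?_, ?_, ?_, ?_⟩
    · have key : ∀ x ∈ s, G.Adj v x → c' v ≠ c' x := by
        intro x hx h he
        rw [cv, cs x hx] at he
        exact hd (Finset.mem_image.2 ⟨x, (left x hx h).1, he.symm⟩)
      intro x hx y hy hxy
      rcases Finset.mem_insert.1 hx with hx' | hx' <;>
        rcases Finset.mem_insert.1 hy with hy' | hy'
      · rw [hx', hy'] at hxy
        exact absurd hxy hvv
      · rw [hx'] at hxy ⊢
        exact key y hy' hxy
      · rw [hy'] at hxy ⊢
        exact (key x hx' hxy.symm).symm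
      · rw [cs x hx', cs y hy']
        exact h1 x hx' y hy' hxy
    · intro x hx y hy hxy
      rcases Finset.mem_insert.1 hx with hx' | hx' <;>
        rcases Finset.mem_insert.1 hy with hy' | hy'
      · rw [hx', hy']
      · rw [hx', pv, ps y hy'] at hxy
        omega
      · rw [hy', pv, ps x hx'] at hxy
        omega
      · rw [ps x hx', ps y hy'] at hxy
        exact h2 x hx' y hy' (by omega)
    · intro y hy a ha b hb hay hby hlay hlby hab
      rcases Finset.mem_insert.1 hy with rfl | hy
      · -- y = v
        rcases Finset.mem_insert.1 ha with rfl | ha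
        · exact absurd hay hvv
        rcases Finset.mem_insert.1 hb with rfl | hb
        · exact absurd hby hvv
        exact hcl (left a ha hay.symm).1 (left b hb hby.symm).1 hab
      · rcases Finset.mem_insert.1 ha with ha' | ha'
        · rw [ha'] at hay hlay
          have := (left y hy hay).2
          omega
        rcases Finset.mem_insert.1 hb with hb' | hb'
        · rw [hb'] at hby hlby
          have := (left y hy hby).2
          omega
        rw [ps a ha', ps y hy] at hlay
        rw [ps b hb', ps y hy] at hlby
        exact h3 y hy a ha' b hb' hay hby (by omega) (by omega) hab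
    · intro u hu a ha w hw x hx hua hwx hc l1 l2 l3
      -- left endpoints are old
      have huv : u ≠ v := by
        rintro rfl
        rcases Finset.mem_insert.1 ha with rfl | ha
        · exact hvv hua
        · have := (left a ha hua).2
          omega
      have hus : u ∈ s := (Finset.mem_insert.1 hu).resolve_left huv
      have hwv : w ≠ v := by
        rintro rfl
        rcases Finset.mem_insert.1 hx with rfl | hx
        · exact hvv hwx
        · have := (left x hx hwx).2
          omega
      have hws : w ∈ s := (Finset.mem_insert.1 hw).resolve_left hwv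
      rw [cs u hus, cs w hws] at hc
      rw [ps u hus, ps w hws] at l1
      rw [ps w hws] at l2
      rcases Finset.mem_insert.1 ha with hav | has
      · -- first right endpoint is new
        rw [hav] at hua l2 l3
        have hxs : x ∈ s := by
          refine (Finset.mem_insert.1 hx).resolve_left ?_
          rintro rfl
          omega
        rw [ps x hxs] at l3
        rw [pv] at l2 l3
        have huK := (left u hus hua.symm).1
        have huz : u ≠ z := by
          rintro rfl
          omega
        have huz' : G.Adj u z := hcl huK hzK huz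
        by_cases hwz : w = z
        · rw [hwz] at hc
          exact h1 u hus z hzs huz' hc
        · have : pos w ≠ pos z := fun h => hwz (h2 w hws z hzs h)
          exact h4 u hus z hzs w hws x hxs huz' hwx hc (by omega) (by omega) (by omega)
      · rw [ps a has] at l2 l3
        rcases Finset.mem_insert.1 hx with hxv | hxs
        · -- second right endpoint is new
          rw [hxv] at hwx l3
          rw [pv] at l3
          have hwK := (left w hws hwx.symm).1
          have hwz : w ≠ z := by
            rintro rfl
            omega
          have hwz' : G.Adj w z := hcl hwK hzK hwz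
          by_cases haz : a = z
          · rw [haz] at hua l2
            have huw : G.Adj u w := h3 z hzs u hus w hws hua hwz' (by omega) (by omega)
              (by rintro rfl; omega)
            exact h1 u hus w hws huw hc
          · have : pos a ≠ pos z := fun h => haz (h2 a has z hzs h)
            exact h4 u hus a has w hws z hzs hua hwz' hc (by omega) (by omega) (by omega)
        · rw [ps x hxs] at l3
          exact h4 u hus a has w hws x hxs hua hwx hc (by omega) (by omega) (by omega)

/-- Every `k`-tree has a crossing-free book embedding with `k + 1` pages. -/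
theorem exists_pages [Fintype V] [DecidableEq V] {G : SimpleGraph V} (hk : 1 ≤ k)
    (hG : IsKTree k G) : ∃ (pos : V → ℕ) (page : Sym2 V → ℕ), Injective pos ∧
      (∀ e, page e < k + 1) ∧
      ∀ u v w x, G.Adj u v → G.Adj w x → page s(u, v) = page s(w, x) → ¬ Cross pos u v w x := by
  obtain ⟨c, pos, -, h2, -, h4⟩ := exists_book hk hG
  let page : Sym2 V → ℕ := Sym2.lift ⟨fun a b => if pos a < pos b then (c a : ℕ) else
    if pos b < pos a then (c b : ℕ) else 0, by
      intro a b
      rcases Nat.lt_trichotomy (pos a) (pos b) with h | h | h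
      · simp [h, h.not_gt]
      · simp [h]
      · simp [h, h.not_gt]⟩
  have hp : ∀ a b, pos a < pos b → page s(a, b) = c a := by
    intro a b h
    simp only [page, Sym2.lift_mk]
    rw [if_pos h]
  refine ⟨pos, page, fun x y h => h2 x (Finset.mem_univ _) y (Finset.mem_univ _) h, ?_, ?_⟩
  · intro e
    induction e using Sym2.ind with
    | _ a b =>
      simp only [page, Sym2.lift_mk]
      split_ifs
      · exact (c a).2
      · exact (c b).2
      · omega
  · rintro u v w x huv hwx he ⟨l1, l2, l3⟩
    rw [hp u v (by omega), hp w x (by omega)] at he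
    exact h4 u (Finset.mem_univ _) v (Finset.mem_univ _) w (Finset.mem_univ _) x
      (Finset.mem_univ _) huv hwx (Fin.ext he) l1 l2 l3

theorem local_le [Fintype V] [DecidableEq V] {G : SimpleGraph V} (hk : 1 ≤ k)
    (hG : IsKTree k G) : HasLocalEmbedding G (k + 1) := by
  obtain ⟨pos, page, h1, h2, h3⟩ := exists_pages hk hG
  refine ⟨pos, page, h1, h3, ?_⟩
  intro v
  have hsub : ((fun u => page s(v, u)) '' G.neighborSet v) ⊆ Set.Iio (k + 1) := by
    rintro _ ⟨u, _, rfl⟩
    exact h2 _
  have := Set.ncard_le_ncard hsub (Set.finite_Iio _)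
  simpa using this

theorem union_le [Fintype V] [DecidableEq V] {G : SimpleGraph V} (hk : 1 ≤ k)
    (hG : IsKTree k G) : HasUnionEmbedding G (k + 1) := by
  obtain ⟨pos, page, h1, h2, h3⟩ := exists_pages hk hG
  exact ⟨pos, page, h1, fun _ _ _ => h2 _, fun u v w x huv hwx he _ => h3 u v w x huv hwx he⟩

end Pool.Agent.R39.KTree
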